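import Mathlib

set_option autoImplicit false

/-! Periodic orbits of generalized `3x+1` maps with `m < d`, and with `d = 2` (helper634). -/

namespace Pool.Agent.Results.MP_34c02d_nt.SmallMultipliers

private lemma bounded (U : ℤ → ℤ) (B : ℤ) (hB : 1 ≤ B)
    (h : ∀ n : ℤ, 1 ≤ n → n ≤ B → 1 ≤ U n ∧ U n ≤ B) (n : ℤ) (h1 : 1 ≤ n) (h2 : n ≤ B) :
    ∃ i k : ℕ, 0 < k ∧ 0 < U^[i] n ∧ U^[k] (U^[i] n) = U^[i] n := by
  have hmem : ∀ i : ℕ, U^[i] n ∈ Set.Icc 1 B := by
    intro i
    induction i with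
    | zero => exact ⟨h1, h2⟩
    | succ i ih =>
      rw [Function.iterate_succ_apply']
      exact h _ ih.1 ih.2
  have hfin : Finite (Set.Icc (1 : ℤ) B) := (Set.finite_Icc 1 B).to_subtype
  obtain ⟨i, j, hij, he⟩ := Finite.exists_ne_map_eq_of_infinite
    (fun i : ℕ => (⟨U^[i] n, hmem i⟩ : Set.Icc (1 : ℤ) B))
  have he' : U^[i] n = U^[j] n := congrArg Subtype.val he
  rcases lt_or_gt_of_ne hij with hlt | hlt
  · refine ⟨i, j - i, by omega, by have := (hmem i).1; omega, ?_⟩
    rw [← Function.iterate_add_apply, Nat.sub_add_cancel hlt.le, he']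
  · refine ⟨j, i - j, by omega, by have := (hmem j).1; omega, ?_⟩
    rw [← Function.iterate_add_apply, Nat.sub_add_cancel hlt.le, he']

/-- A map `U(m,d,R)` of the class `G` with `m < d`, or with `d = 2` and `m < 4`, has a positive
periodic point; for `m < d` every positive trajectory is eventually periodic. -/
theorem result :
    ∀ (m d : ℕ) (r : ℤ → ℤ) (U : ℤ → ℤ),
    0 < m → 2 ≤ d → Nat.Coprime m d →
    (∀ i : ℤ, 1 ≤ i → i ≤ (d : ℤ) - 1 → r i ≡ i [ZMOD (d : ℤ)]) →
    (∀ n : ℤ, U n = if (d : ℤ) ∣ n then n / (d : ℤ)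
        else ((m : ℤ) * n - r ((m : ℤ) * n % (d : ℤ))) / (d : ℤ)) →
    (∀ n : ℤ, 0 < n → 0 < U n) →
    (m < d → ∀ n : ℤ, 0 < n → ∃ i k : ℕ, 0 < k ∧ U^[k] (U^[i] n) = U^[i] n) ∧
    (m < d ∨ (d = 2 ∧ m < 4) → ∃ n : ℤ, 0 < n ∧ ∃ k : ℕ, 0 < k ∧ U^[k] n = n) := by
  intro m d r U hm hd hco hr hU hpos
  have hd0 : (0 : ℤ) < d := by exact_mod_cast (by omega : 0 < d)
  have key : m < d → ∀ n : ℤ, 0 < n →
      ∃ i k : ℕ, 0 < k ∧ 0 < U^[i] n ∧ U^[k] (U^[i] n) = U^[i] n := by
    intro hmd n hn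
    set C : ℤ := ∑ i ∈ Finset.Icc (1 : ℤ) ((d : ℤ) - 1), |r i| with hC
    have hC0 : 0 ≤ C := Finset.sum_nonneg (fun i _ => abs_nonneg _)
    have hmd' : (m : ℤ) + 1 ≤ d := by exact_mod_cast hmd
    have hm' : (1 : ℤ) ≤ m := by exact_mod_cast hm
    refine bounded U (C + n) (by omega) ?_ n hn (by omega)
    intro x hx1 hx2
    refine ⟨hpos x (by omega), ?_⟩
    rw [hU x]
    split_ifs with hdx
    · have : x / (d : ℤ) ≤ x := Int.ediv_le_self _ (by omega)
      omega
    · have hi0 : 0 ≤ (m : ℤ) * x % d := Int.emod_nonneg _ hd0.ne'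
      have hi1 : (m : ℤ) * x % d < d := Int.emod_lt_of_pos _ hd0
      have hine : (m : ℤ) * x % d ≠ 0 := by
        intro h0
        have h1 : (d : ℤ) ∣ m * x := Int.dvd_of_emod_eq_zero h0
        have h2 : IsCoprime (d : ℤ) (m : ℤ) := (Nat.isCoprime_iff_coprime.2 hco).symm
        exact hdx (h2.dvd_of_dvd_mul_left h1)
      have hle : |r ((m : ℤ) * x % d)| ≤ C :=
        Finset.single_le_sum (f := fun i => |r i|) (fun i _ => abs_nonneg _)
          (Finset.mem_Icc.2 ⟨by omega, by omega⟩)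
      have hle2 : -r ((m : ℤ) * x % d) ≤ C := (neg_le_abs _).trans hle
      have h3 : (m : ℤ) * x - r ((m : ℤ) * x % d) ≤ (C + n) * d := by
        nlinarith
      calc ((m : ℤ) * x - r ((m : ℤ) * x % d)) / (d : ℤ) ≤ ((C + n) * d) / d :=
            Int.ediv_le_ediv hd0 h3
        _ = C + n := Int.mul_ediv_cancel _ hd0.ne'
  refine ⟨fun h n hn => ?_, ?_⟩
  · obtain ⟨i, k, hk, _, h1⟩ := key h n hn
    exact ⟨i, k, hk, h1⟩
  · rintro (h | ⟨rfl, h⟩)
    · obtain ⟨i, k, hk, h0, h1⟩ := key h 1 one_pos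
      exact ⟨_, h0, k, hk, h1⟩
    · by_cases h1 : m < 2
      · obtain ⟨i, k, hk, h0, h1⟩ := key h1 1 one_pos
        exact ⟨_, h0, k, hk, h1⟩
      · have hm3 : m = 3 := by
          rcases Nat.lt_or_ge m 3 with h2 | h2
          · have : m = 2 := by omega
            subst this
            norm_num at hco
          · omega
        subst hm3
        have hodd : ∀ n : ℤ, n % 2 = 1 → U n = (3 * n - r 1) / 2 := by
          intro n hn
          rw [hU n]
          have h2 : ¬ ((2 : ℕ) : ℤ) ∣ n := by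
            push_cast
            omega
          rw [if_neg h2]
          have h3 : ((3 : ℕ) : ℤ) * n % ((2 : ℕ) : ℤ) = 1 := by
            push_cast
            omega
          rw [h3]
          norm_num
        have hev : ∀ n : ℤ, U (2 * n) = n := by
          intro n
          rw [hU (2 * n)]
          have h2 : ((2 : ℕ) : ℤ) ∣ 2 * n := by
            push_cast
            exact dvd_mul_right 2 n
          rw [if_pos h2]
          push_cast
          omega
        have hr1 : r 1 % 2 = 1 := by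
          have := hr 1 le_rfl (by norm_num)
          have h4 : r 1 % ((2 : ℕ) : ℤ) = 1 % ((2 : ℕ) : ℤ) := this
          push_cast at h4
          omega
        have hU1 := hpos 1 one_pos
        rw [hodd 1 (by norm_num)] at hU1
        by_cases h5 : r 1 = 1
        · refine ⟨1, one_pos, 1, one_pos, ?_⟩
          rw [Function.iterate_one, hodd 1 (by norm_num), h5]
          norm_num
        · refine ⟨-r 1, by omega, 2, by norm_num, ?_⟩
          have h6 : U (-r 1) = 2 * (-r 1) := by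
            rw [hodd _ (by omega)]
            omega
          show U (U (-r 1)) = -r 1
          rw [h6, hev]

end Pool.Agent.Results.MP_34c02d_nt.SmallMultipliers
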